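/-
ROW Cn3 (about 120 lines). Consequences of count_up, count_lo (used as stated). `s_ge : 4L + k w ≤ s`.
(1) W_le. `W L u φ * (n * p ^ (4L)) ^ m ≤ W L (u+m) φ` for `u + m ≤ L`, `φ ≤ 3L`. PROOF. `W L (u+1) φ = W L u φ * (n * p ^ u * p ^ φ)` for `u < L`, and `p ^ (u + φ) ≥ p ^ (4L)`; induction on `m`.
(2) val_of_mem. immediate from mem_cell, mem_pts.
(3) den_all_le: `count_up` with `T = ∅`, `S = ∅` (`sel` is the cell), `8 ^ (L-u) ≤ 8 ^ L`.
(4) tot_le: `count_lo` with `T = ∅`, `S = ∅`.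
(5) sel_le: `count_up` for `T, S` divided by `count_lo` for `∅, ∅`: `64 ^ L = 8 ^ L * 8 ^ L`; divide by `W > 0`.
(6) cell_le: `#cell U' * W u' ≤ 8^L Tot ≤ 64 ^ L * #cell U * W u` and (1) with `m = u' - u`: `W u * (n p^(4L))^m ≤ W u'`.
-/
import Pool.Agent.H49.RL.Cnt

set_option autoImplicit false
set_option linter.unusedSectionVars false

open Finset

namespace Pool.Agent.H49.RL

open Pool.Agent.H49.RG (Cl Ad Eqn nbr cell pts mem_cell mem_nbr mem_pts cell_sub cell_mono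
  cell_anti cell_cell cell_eq)

variable {ν : Type} [Fintype ν] [DecidableEq ν] {L : ℕ}

theorem Cn3_W_succ {c : Num} (hp : 0 < c.p) (u φ : ℕ) (hu : u < L) :
    c.W L (u + 1) φ = c.W L u φ * (c.n * c.p ^ u * c.p ^ φ) := by
  have h1 : (u + 1).choose 2 = u.choose 2 + u := by
    rw [Nat.choose_succ_succ' u 1, Nat.choose_one_right, add_comm]
  have h2 : φ * (L - u) = φ * (L - (u + 1)) + φ := by
    have : L - u = (L - (u + 1)) + 1 := by omega
    rw [this]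
    ring
  unfold Num.W
  rw [h1, h2, pow_add, pow_add, pow_succ]
  have h3 : c.p ^ (φ * (L - (u + 1))) ≠ 0 := pow_ne_zero _ hp.ne'
  have h4 : c.p ^ φ ≠ 0 := pow_ne_zero _ hp.ne'
  field_simp
  rw [pow_add]
  ring

theorem W_le {c : Num} {R : ℕ} (hc : c.OK R L) (u m φ : ℕ) (hu : u + m ≤ L) (hφ : φ ≤ 3 * L) :
    c.W L u φ * (c.n * c.p ^ (4 * L)) ^ m ≤ c.W L (u + m) φ := by
  have hp := hc.p_pos
  have hn : (0 : ℝ) < c.n := by exact_mod_cast hc.n_pos
  induction m with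
  | zero => simp
  | succ m ih =>
    have ih' := ih (by omega)
    have hW : 0 < c.W L (u + m) φ := Num.W_pos hp hc.n_pos _ _ _
    have e : u + (m + 1) = (u + m) + 1 := by ring
    rw [e, Cn3_W_succ hp (u + m) φ (by omega)]
    have h1 : c.n * c.p ^ (4 * L) ≤ c.n * c.p ^ (u + m) * c.p ^ φ := by
      rw [mul_assoc, ← pow_add]
      exact mul_le_mul_of_nonneg_left
        (pow_le_pow_of_le_one hp.le hc.p_le (by omega)) hn.le
    calc c.W L u φ * (c.n * c.p ^ (4 * L)) ^ (m + 1)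
        = (c.W L u φ * (c.n * c.p ^ (4 * L)) ^ m) * (c.n * c.p ^ (4 * L)) := by ring
      _ ≤ c.W L (u + m) φ * (c.n * c.p ^ (4 * L)) :=
        mul_le_mul_of_nonneg_right ih' (by positivity)
      _ ≤ c.W L (u + m) φ * (c.n * c.p ^ (u + m) * c.p ^ φ) :=
        mul_le_mul_of_nonneg_left h1 hW.le

theorem val_of_mem {P : Pl ν L} {U : Finset (Fin L)} {α : Fin L → ν} {Φ : Finset ν}
    {x : Fin L → ν} (hx : x ∈ cell P.G (pts P.G P.V) U α Φ) : P.Val U α Φ := by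
  obtain ⟨h1, h2, h3⟩ := mem_cell.1 hx
  obtain ⟨h4, h5⟩ := mem_pts.1 h1
  refine ⟨fun j hj => ?_, fun i hi j hj hij => ?_, fun j hj v hv => ?_⟩
  · rw [← h2 j hj]
    exact h4 j
  · rw [← h2 i hi, ← h2 j hj]
    exact h5 i j hij
  · rw [← h2 j hj]
    exact h3 j (mem_univ j) v hv

theorem Cn3_sel_empty (P : Pl ν L) (U : Finset (Fin L)) (α : Fin L → ν) (Φ : Finset ν) :
    P.sel U α Φ ∅ ∅ = cell P.G (pts P.G P.V) U α Φ := by
  classical
  unfold Pl.sel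
  refine Finset.filter_true_of_mem ?_
  intro x _ j hj
  simp at hj

theorem Cn3_pow_le (u : ℕ) : (8 : ℝ) ^ (L - u) ≤ 8 ^ L :=
  pow_le_pow_right₀ (by norm_num) (by omega)

theorem den_all_le {P : Pl ν L} {c : Num} {R : ℕ} (h : P.OK c) (hc : c.OK R L)
    (U : Finset (Fin L)) (α : Fin L → ν) (Φ : Finset ν) (hΦ : Φ ⊆ P.Out) (hs : Φ.card ≤ 3 * L) :
    P.den c (pts P.G P.V) U α Φ ≤ 8 ^ L * c.Tot L := by
  have hsge := hc.s_ge
  have h1 := count_up h hc U α Φ ∅ ∅ (by simp) hΦ (by simp) (by simp) (by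
    rw [card_empty]
    omega)
  rw [Cn3_sel_empty, card_empty, card_empty, Nat.zero_mul, pow_zero, mul_one] at h1
  have hT : 0 < c.Tot L := Num.Tot_pos hc.p_pos hc.n_pos L
  exact h1.trans (mul_le_mul_of_nonneg_right (Cn3_pow_le _) hT.le)

theorem tot_le {P : Pl ν L} {c : Num} {R : ℕ} (h : P.OK c) (hc : c.OK R L)
    (U : Finset (Fin L)) (α : Fin L → ν) (Φ : Finset ν) (hΦ : Φ ⊆ P.Out) (hs : Φ.card ≤ 3 * L)
    (hv : P.Val U α Φ) :
    c.Tot L ≤ 8 ^ L * P.den c (pts P.G P.V) U α Φ := by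
  have hsge := hc.s_ge
  have h1 := count_lo h hc U α Φ ∅ ∅ (by simp) hΦ (by simp) (by simp) (by
    rw [card_empty]
    omega) hv
  rw [Cn3_sel_empty, card_empty, card_empty, Nat.zero_mul, pow_zero, mul_one] at h1
  have hd := P.den_nonneg hc.p_pos hc.n_pos (pts P.G P.V) U α Φ
  exact h1.trans (mul_le_mul_of_nonneg_right (Cn3_pow_le _) hd)

theorem sel_le {P : Pl ν L} {c : Num} {R : ℕ} (h : P.OK c) (hc : c.OK R L) (U : Finset (Fin L))
    (α : Fin L → ν) (Φ : Finset ν) (T : Finset (Fin L)) (S : Finset ν) (hT : Disjoint T U)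
    (hΦ : Φ ⊆ P.Out) (hS : S ⊆ P.Out) (hSΦ : Disjoint S Φ) (hΦc : Φ.card ≤ 3 * L)
    (hSc : S.card ≤ 2 * c.K1) (hv : P.Val U α Φ) :
    ((P.sel U α Φ T S).card : ℝ) ≤
      64 ^ L * c.p ^ (S.card * T.card) * (cell P.G (pts P.G P.V) U α Φ).card := by
  have hsge := hc.s_ge
  have h1 := count_up h hc U α Φ T S hT hΦ hS hSΦ (by omega)
  have h2 := tot_le h hc U α Φ hΦ hΦc hv
  have hW : 0 < c.W L U.card Φ.card := Num.W_pos hc.p_pos hc.n_pos _ _ _
  have hT0 : 0 < c.Tot L := Num.Tot_pos hc.p_pos hc.n_pos L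
  have hpp : 0 < c.p ^ (S.card * T.card) := pow_pos hc.p_pos _
  have h64 : (64 : ℝ) ^ L = 8 ^ L * 8 ^ L := by rw [← mul_pow]; norm_num
  unfold Pl.den at h2
  refine le_of_mul_le_mul_right ?_ hW
  calc ((P.sel U α Φ T S).card : ℝ) * c.W L U.card Φ.card
      ≤ 8 ^ (L - U.card) * c.Tot L * c.p ^ (S.card * T.card) := h1
    _ ≤ 8 ^ L * c.Tot L * c.p ^ (S.card * T.card) :=
      mul_le_mul_of_nonneg_right (mul_le_mul_of_nonneg_right (Cn3_pow_le _) hT0.le) hpp.le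
    _ ≤ 8 ^ L * (8 ^ L * ((cell P.G (pts P.G P.V) U α Φ).card * c.W L U.card Φ.card))
        * c.p ^ (S.card * T.card) :=
      mul_le_mul_of_nonneg_right (mul_le_mul_of_nonneg_left h2 (by positivity)) hpp.le
    _ = 64 ^ L * c.p ^ (S.card * T.card) * (cell P.G (pts P.G P.V) U α Φ).card
        * c.W L U.card Φ.card := by rw [h64]; ring

theorem cell_le {P : Pl ν L} {c : Num} {R : ℕ} (h : P.OK c) (hc : c.OK R L)
    (U U' : Finset (Fin L)) (α α' : Fin L → ν) (Φ : Finset ν) (hU : U ⊆ U')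
    (hΦ : Φ ⊆ P.Out) (hΦc : Φ.card ≤ 3 * L) (hv : P.Val U α Φ) :
    ((cell P.G (pts P.G P.V) U' α' Φ).card : ℝ) * (c.n * c.p ^ (4 * L)) ^ (U'.card - U.card) ≤
      64 ^ L * (cell P.G (pts P.G P.V) U α Φ).card := by
  have h1 := den_all_le h hc U' α' Φ hΦ hΦc
  have h2 := tot_le h hc U α Φ hΦ hΦc hv
  have hW : 0 < c.W L U.card Φ.card := Num.W_pos hc.p_pos hc.n_pos _ _ _
  have hcard : U.card ≤ U'.card := card_le_card hU
  have hL : U'.card ≤ L := by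
    have := card_le_univ U'
    rwa [Fintype.card_fin] at this
  have h3 := W_le hc U.card (U'.card - U.card) Φ.card (by omega) hΦc
  have e : U.card + (U'.card - U.card) = U'.card := by omega
  rw [e] at h3
  have h64 : (64 : ℝ) ^ L = 8 ^ L * 8 ^ L := by rw [← mul_pow]; norm_num
  unfold Pl.den at h1 h2
  have hc0 : (0 : ℝ) ≤ (cell P.G (pts P.G P.V) U' α' Φ).card := Nat.cast_nonneg _
  refine le_of_mul_le_mul_right ?_ hW
  calc ((cell P.G (pts P.G P.V) U' α' Φ).card : ℝ)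
        * (c.n * c.p ^ (4 * L)) ^ (U'.card - U.card) * c.W L U.card Φ.card
      = (cell P.G (pts P.G P.V) U' α' Φ).card
        * (c.W L U.card Φ.card * (c.n * c.p ^ (4 * L)) ^ (U'.card - U.card)) := by ring
    _ ≤ (cell P.G (pts P.G P.V) U' α' Φ).card * c.W L U'.card Φ.card :=
      mul_le_mul_of_nonneg_left h3 hc0
    _ ≤ 8 ^ L * c.Tot L := h1
    _ ≤ 8 ^ L * (8 ^ L * ((cell P.G (pts P.G P.V) U α Φ).card * c.W L U.card Φ.card)) :=
      mul_le_mul_of_nonneg_left h2 (by positivity)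
    _ = 64 ^ L * (cell P.G (pts P.G P.V) U α Φ).card * c.W L U.card Φ.card := by
      rw [h64]; ring

end Pool.Agent.H49.RL
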