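/-
Base cases and Case 1 of the main lemma on cells.
-/
import Pool.Agent.H49.RL.SpB

set_option autoImplicit false
set_option linter.unusedSectionVars false

open Finset

namespace Pool.Agent.H49.RL

open Pool.Agent.H49.RG (Cl Ad Eqn nbr cell pts mem_cell mem_nbr mem_pts cell_sub cell_mono
  cell_anti cell_cell cell_eq)

variable {ν : Type} [Fintype ν] [DecidableEq ν] {L : ℕ}

/-- The general position of a cell in the induction. -/
structure Pl.Pos (P : Pl ν L) (C : Finset (Fin L → ν)) (U : Finset (Fin L))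
    (α : Fin L → ν) (Y : Finset ν) : Prop where
  sub : C ⊆ cell P.G (pts P.G P.V) U α Y
  out : Y ⊆ P.Out

/-- The arithmetic of Case 1. -/
theorem sqrt_split (c c1 l l1 : ℝ) (hc : 0 < c) (hc1 : 0 ≤ c1) (hcc : c1 ≤ c) (hl : 0 ≤ l)
    (h : 4 * c * l1 ≤ c1 * l) :
    Real.sqrt (l1 * c1) + Real.sqrt (l * (c - c1)) ≤ Real.sqrt (l * c) := by
  have hs : 0 < Real.sqrt c := Real.sqrt_pos.mpr hc
  have hss : Real.sqrt c * Real.sqrt c = c := Real.mul_self_sqrt hc.le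
  have hl' : Real.sqrt l * Real.sqrt l = l := Real.mul_self_sqrt hl
  have h1 : Real.sqrt (l1 * c1) ≤ c1 / (2 * Real.sqrt c) * Real.sqrt l := by
    rw [Real.sqrt_le_left (by positivity)]
    have e : (c1 / (2 * Real.sqrt c) * Real.sqrt l) ^ 2 = c1 ^ 2 * l / (4 * c) := by
      rw [mul_pow, div_pow, mul_pow, Real.sq_sqrt hc.le, Real.sq_sqrt hl]
      ring
    rw [e, le_div_iff₀ (by positivity)]
    calc l1 * c1 * (4 * c) = c1 * (4 * c * l1) := by ring
      _ ≤ c1 * (c1 * l) := mul_le_mul_of_nonneg_left h hc1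
      _ = c1 ^ 2 * l := by ring
  have h2 : Real.sqrt (l * (c - c1)) ≤ (Real.sqrt c - c1 / (2 * Real.sqrt c)) * Real.sqrt l := by
    have hnn : 0 ≤ Real.sqrt c - c1 / (2 * Real.sqrt c) := by
      rw [sub_nonneg, div_le_iff₀ (by positivity)]
      nlinarith
    rw [Real.sqrt_le_left (by positivity), mul_pow, Real.sq_sqrt hl, mul_comm l]
    refine mul_le_mul_of_nonneg_right ?_ hl
    have e : (Real.sqrt c - c1 / (2 * Real.sqrt c)) ^ 2 = c - c1 + (c1 / (2 * Real.sqrt c)) ^ 2 := by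
      have : Real.sqrt c * (c1 / (2 * Real.sqrt c)) = c1 / 2 := by
        field_simp
      nlinarith
    rw [e]
    nlinarith [sq_nonneg (c1 / (2 * Real.sqrt c))]
  have h3 : Real.sqrt (l * c) = Real.sqrt c * Real.sqrt l := by
    rw [mul_comm]
    exact Real.sqrt_mul hc.le l
  rw [h3]
  nlinarith

theorem Bad_sub {P : Pl ν L} {c : Num} {F : (Fin L → ν) → ℝ} {C : Finset (Fin L → ν)}
    {Y : Finset ν} : P.Bad c F C Y ⊆ C := fun _ hx => (Pl.mem_Bad.1 hx).1

/-- A bad point is bad in every subset that contains it. -/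
theorem Bad_of_sub {P : Pl ν L} {c : Num} {F : (Fin L → ν) → ℝ} {C C' : Finset (Fin L → ν)}
    {Y : Finset ν} {x : Fin L → ν} (hx : x ∈ P.Bad c F C Y) (hC : C' ⊆ C) (hx' : x ∈ C') :
    x ∈ P.Bad c F C' Y := by
  obtain ⟨-, y, h1, h2, h3, h4, h5⟩ := Pl.mem_Bad.1 hx
  exact Pl.mem_Bad.2 ⟨hx', y, h1, h2, h3, h4, fun hg => h5 (hg.mono hC)⟩

theorem κ_pos {c : Num} {R : ℕ} (hc : c.OK R L) (u y : ℕ) : 0 < c.κ u y := by
  unfold Num.κ
  have h1 := hc.κ0_pos
  have h2 : 0 < c.h := lt_of_lt_of_le one_pos hc.h_ge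
  have h4 : 0 < c.β := lt_of_lt_of_le (by norm_num) hc.β_ge
  positivity

/-- The claim in numbers of points. -/
theorem clm_iff {P : Pl ν L} {c : Num} {R : ℕ} (hc : c.OK R L)
    {F : (Fin L → ν) → ℝ} {C : Finset (Fin L → ν)} {U : Finset (Fin L)} {α : Fin L → ν}
    {Y : Finset ν} (hC : C ⊆ cell P.G (pts P.G P.V) U α Y) :
    P.Clm c F C U α Y ↔ ((P.Bad c F C Y).card : ℝ) ^ 2 ≤
      c.κ U.card Y.card * c.Tot L / c.W L U.card Y.card * C.card := by
  have hW := Num.W_pos hc.p_pos hc.n_pos L U.card Y.card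
  unfold Pl.Clm
  rw [P.den_of_sub c (Bad_sub.trans hC), P.den_of_sub c hC, div_mul_eq_mul_div, le_div_iff₀ hW]
  constructor
  · intro h
    have h1 : c.W L U.card Y.card * (((P.Bad c F C Y).card : ℝ) ^ 2 * c.W L U.card Y.card) ≤
        c.W L U.card Y.card * (c.κ U.card Y.card * c.Tot L * C.card) := by
      calc _ = (((P.Bad c F C Y).card : ℝ) * c.W L U.card Y.card) ^ 2 := by ring
        _ ≤ _ := h
        _ = _ := by ring
    exact le_of_mul_le_mul_left h1 hW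
  · intro h
    calc (((P.Bad c F C Y).card : ℝ) * c.W L U.card Y.card) ^ 2
        = c.W L U.card Y.card * (((P.Bad c F C Y).card : ℝ) ^ 2 * c.W L U.card Y.card) := by
          ring
      _ ≤ c.W L U.card Y.card * (c.κ U.card Y.card * c.Tot L * C.card) :=
          mul_le_mul_of_nonneg_left h hW.le
      _ = _ := by ring

theorem clm_small {P : Pl ν L} {c : Num} {R : ℕ} (hc : c.OK R L)
    {F : (Fin L → ν) → ℝ} {C : Finset (Fin L → ν)} {U : Finset (Fin L)} {α : Fin L → ν}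
    {Y : Finset ν}
    (hd : P.den c C U α Y ≤ c.κ U.card Y.card * c.Tot L) :
    P.Clm c F C U α Y := by
  unfold Pl.Clm
  have h0 := P.den_nonneg hc.p_pos hc.n_pos (P.Bad c F C Y) U α Y
  have h1 := P.den_nonneg hc.p_pos hc.n_pos C U α Y
  have h2 := P.den_mono hc.p_pos hc.n_pos (Bad_sub (P := P) (c := c) (F := F) (C := C) (Y := Y)) U α Y
  calc P.den c (P.Bad c F C Y) U α Y ^ 2 ≤ P.den c C U α Y ^ 2 := pow_le_pow_left₀ h0 h2 2
    _ = P.den c C U α Y * P.den c C U α Y := sq _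
    _ ≤ _ := mul_le_mul_of_nonneg_right hd h1

/-- `κ` is at least `κ0 / β ^ (8 w)`. -/
theorem κ_ge {c : Num} {R : ℕ} (hc : c.OK R L) (u y : ℕ) (hy : y ≤ c.w) :
    c.κ0 * c.h ^ u / c.β ^ (8 * c.w) ≤ c.κ u y := by
  unfold Num.κ
  have h1 := hc.κ0_pos
  have h2 : 0 < c.h := lt_of_lt_of_le one_pos hc.h_ge
  have h4 : 0 < c.β := lt_of_lt_of_le (by norm_num) hc.β_ge
  have h5 : 1 ≤ c.β := le_trans (by norm_num) hc.β_ge
  refine div_le_div_of_nonneg_left (by positivity) (by positivity) ?_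
  exact pow_le_pow_right₀ h5 (Nat.mul_le_mul_left 8 hy)

/-- `w` is less than `L`. -/
theorem w_lt {c : Num} {R : ℕ} (hc : c.OK R L) : 8 * c.w ≤ L := by
  have h1 := hc.wK
  have h2 := hc.K_le
  omega

theorem clm_U {P : Pl ν L} {c : Num} {R : ℕ} (h : P.OK c) (hc : c.OK R L)
    {F : (Fin L → ν) → ℝ} {C : Finset (Fin L → ν)} {U : Finset (Fin L)} {α : Fin L → ν}
    {Y : Finset ν} (hP : P.Pos C U α Y) (hY : Y.card ≤ c.w)
    (hU : c.f < U.card) : P.Clm c F C U α Y := by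
  have hTot := Num.Tot_pos hc.p_pos hc.n_pos L
  have h1 := hc.κ0_pos
  have h2 := hc.h_ge
  have h4 : 0 < c.β := lt_of_lt_of_le (by norm_num) hc.β_ge
  have hcard : Y.card ≤ 3 * L := by
    have e3 := w_lt hc
    omega
  refine clm_small hc ?_
  have h5 : P.den c C U α Y ≤ 8 ^ L * c.Tot L :=
    (P.den_mono hc.p_pos hc.n_pos (hP.sub.trans (cell_sub _ _ _ _ _)) U α Y).trans
      (den_all_le h hc U α Y hP.out hcard)
  refine h5.trans (mul_le_mul_of_nonneg_right (le_trans ?_ (κ_ge hc _ _ hY)) hTot.le)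
  rw [le_div_iff₀ (by positivity)]
  exact hc.FU.trans (mul_le_mul_of_nonneg_left (pow_le_pow_right₀ h2 hU) h1.le)

theorem clm_Y {P : Pl ν L} {c : Num} {R : ℕ} (hc : c.OK R L)
    {F : (Fin L → ν) → ℝ} {C : Finset (Fin L → ν)} {U : Finset (Fin L)} {α : Fin L → ν}
    {Y : Finset ν} (hY : c.w < Y.card) :
    P.Clm c F C U α Y := by
  have hTot := Num.Tot_pos hc.p_pos hc.n_pos L
  have h0 : P.Bad c F C Y = ∅ := by
    rw [eq_empty_iff_forall_notMem]
    intro x hx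
    obtain ⟨-, y, h1, -, h2, -⟩ := Pl.mem_Bad.1 hx
    have := card_le_card h1
    omega
  unfold Pl.Clm
  rw [h0]
  have h1 : P.den c (∅ : Finset (Fin L → ν)) U α Y = 0 := by
    unfold Pl.den
    have : cell P.G (∅ : Finset (Fin L → ν)) U α Y = ∅ := by
      rw [← subset_empty]
      exact cell_sub _ _ _ _ _
    rw [this]
    simp
  rw [h1]
  have h2 := P.den_nonneg hc.p_pos hc.n_pos C U α Y
  have h3 := κ_pos hc U.card Y.card
  have h4 : 0 ≤ c.κ U.card Y.card * c.Tot L * P.den c C U α Y :=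
    mul_nonneg (mul_nonneg h3.le hTot.le) h2
  simpa using h4

theorem np_ge {c : Num} {R : ℕ} (hc : c.OK R L) : 1 ≤ (c.n : ℝ) * c.p ^ (4 * L) := by
  have h1 : (c.n : ℝ) * c.p ^ (5 * L) ≤ c.n * c.p ^ (4 * L) :=
    mul_le_mul_of_nonneg_left (pow_le_pow_of_le_one hc.p_pos.le hc.p_le (by omega))
      (Nat.cast_nonneg _)
  refine le_trans ?_ (hc.F8.trans h1)
  have h2 : (1 : ℝ) ≤ 2 * (R : ℝ) := by
    have : (1 : ℝ) ≤ R := by exact_mod_cast hc.R_pos
    linarith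
  have h3 : (1 : ℝ) ≤ 16 ^ L := one_le_pow₀ (by norm_num)
  have h4 : (1 : ℝ) ≤ c.G1 := by linarith [hc.G1_ge]
  have h5 : (1 : ℝ) ≤ c.β ^ 2 := one_le_pow₀ (by linarith [hc.β_ge])
  calc (1 : ℝ) = 1 * 1 * 1 * 1 * 1 := by norm_num
    _ ≤ 2 * (R : ℝ) * 16 ^ L * c.G1 * c.h * c.β ^ 2 := by
      have h6 := hc.h_ge
      gcongr

theorem two_le {P : Pl ν L} {c : Num} {R : ℕ} (hc : c.OK R L)
    {C : Finset (Fin L → ν)} {U : Finset (Fin L)} {α : Fin L → ν}
    {Y : Finset ν} (hP : P.Pos C U α Y) (hY : Y.card ≤ c.w) (hU : U.card ≤ c.f)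
    (hd : c.κ U.card Y.card * c.Tot L < P.den c C U α Y) : 2 ≤ C.card := by
  by_contra hcon
  have hTot := Num.Tot_pos hc.p_pos hc.n_pos L
  have h1 := hc.κ0_pos
  have h4 : 0 < c.β := lt_of_lt_of_le (by norm_num) hc.β_ge
  have hnp := np_ge hc
  have hcard : Y.card ≤ 3 * L := by
    have e3 := w_lt hc
    omega
  have hfL := hc.f_lt
  have hW := Num.W_pos hc.p_pos hc.n_pos L U.card Y.card
  have h5 := W_le hc U.card (L - U.card) Y.card (by omega) hcard
  have h6 : c.W L (U.card + (L - U.card)) Y.card = c.Tot L := by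
    rw [show U.card + (L - U.card) = L by omega]
    unfold Num.W Num.Tot
    simp
  rw [h6] at h5
  have h7 : P.den c C U α Y ≤ c.W L U.card Y.card := by
    rw [P.den_of_sub c hP.sub]
    have h8 : (C.card : ℝ) ≤ 1 := by exact_mod_cast (by omega : C.card ≤ 1)
    calc (C.card : ℝ) * c.W L U.card Y.card ≤ 1 * c.W L U.card Y.card :=
          mul_le_mul_of_nonneg_right h8 hW.le
      _ = _ := one_mul _
  have h8 : (c.n * c.p ^ (4 * L)) ^ (L - c.f) ≤ (c.n * c.p ^ (4 * L)) ^ (L - U.card) :=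
    pow_le_pow_right₀ hnp (by omega)
  have h9 : c.W L U.card Y.card * (c.n * c.p ^ (4 * L)) ^ (L - c.f) ≤ c.Tot L :=
    (mul_le_mul_of_nonneg_left h8 hW.le).trans h5
  have h10 : c.W L U.card Y.card ≤ c.κ U.card Y.card * c.Tot L := by
    have h11 := κ_ge hc U.card Y.card hY
    have h12 : c.κ0 ≤ c.κ0 * c.h ^ U.card := by
      have e1 : 1 ≤ c.h ^ U.card := one_le_pow₀ hc.h_ge
      calc c.κ0 = c.κ0 * 1 := by ring
        _ ≤ c.κ0 * c.h ^ U.card := mul_le_mul_of_nonneg_left e1 h1.le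
    have h13 : c.κ0 / c.β ^ (8 * c.w) ≤ c.κ U.card Y.card :=
      (div_le_div_of_nonneg_right h12 (by positivity)).trans h11
    have h14 : c.W L U.card Y.card * c.β ^ (8 * c.w) ≤ c.κ0 * c.Tot L := by
      calc c.W L U.card Y.card * c.β ^ (8 * c.w)
          ≤ c.W L U.card Y.card * (c.κ0 * (c.n * c.p ^ (4 * L)) ^ (L - c.f)) :=
            mul_le_mul_of_nonneg_left hc.FC hW.le
        _ = c.κ0 * (c.W L U.card Y.card * (c.n * c.p ^ (4 * L)) ^ (L - c.f)) := by ring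
        _ ≤ c.κ0 * c.Tot L := mul_le_mul_of_nonneg_left h9 h1.le
    calc c.W L U.card Y.card ≤ c.κ0 * c.Tot L / c.β ^ (8 * c.w) := by
          rw [le_div_iff₀ (by positivity)]
          exact h14
      _ = c.κ0 / c.β ^ (8 * c.w) * c.Tot L := by ring
      _ ≤ _ := mul_le_mul_of_nonneg_right h13 hTot.le
  linarith

theorem case1 {P : Pl ν L} {c : Num} {R : ℕ} (hc : c.OK R L)
    {F : (Fin L → ν) → ℝ} {C : Finset (Fin L → ν)} {U : Finset (Fin L)} {α : Fin L → ν}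
    {Y : Finset ν} (hP : P.Pos C U α Y) (U1 : Finset (Fin L)) (α1 : Fin L → ν)
    (hU1 : U ⊆ U1)
    (hbig : 4 * c.h ^ (U1.card - U.card) * P.den c C U α Y <
      P.den c (cell P.G C U1 α1 Y) U1 α1 Y)
    (h1 : P.Clm c F (cell P.G C U1 α1 Y) U1 α1 Y)
    (h2 : P.Clm c F (C \ cell P.G C U1 α1 Y) U α Y) :
    P.Clm c F C U α Y := by
  have hTot := Num.Tot_pos hc.p_pos hc.n_pos L
  obtain ⟨C1, hC1⟩ : ∃ C1, C1 = cell P.G C U1 α1 Y := ⟨_, rfl⟩
  rw [← hC1] at hbig h1 h2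
  have hC1C : C1 ⊆ C := by
    rw [hC1]
    exact cell_sub _ _ _ _ _
  have hCpts : C ⊆ pts P.G P.V := hP.sub.trans (cell_sub _ _ _ _ _)
  have hC1cell : C1 ⊆ cell P.G (pts P.G P.V) U1 α1 Y := by
    rw [hC1]
    exact cell_mono hCpts _ _ _
  have hW := Num.W_pos hc.p_pos hc.n_pos L U.card Y.card
  have hW1 := Num.W_pos hc.p_pos hc.n_pos L U1.card Y.card
  rw [P.den_of_sub c hC1cell, P.den_of_sub c hP.sub] at hbig
  rw [clm_iff hc hC1cell] at h1
  rw [clm_iff hc (sdiff_subset.trans hP.sub)] at h2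
  rw [clm_iff hc hP.sub]
  obtain ⟨W, hWd⟩ : ∃ W, W = c.W L U.card Y.card := ⟨_, rfl⟩
  obtain ⟨W1, hW1d⟩ : ∃ W1, W1 = c.W L U1.card Y.card := ⟨_, rfl⟩
  rw [← hWd] at hW hbig h2 ⊢
  rw [← hW1d] at hW1 hbig h1
  obtain ⟨κ, hκ⟩ : ∃ κ, κ = c.κ U.card Y.card := ⟨_, rfl⟩
  have hκ0 : 0 < κ := by
    rw [hκ]
    exact κ_pos hc _ _
  obtain ⟨e, he⟩ : ∃ e, e = c.h ^ (U1.card - U.card) := ⟨_, rfl⟩
  have he0 : 0 < e := by
    rw [he]
    have e2 : 0 < c.h := lt_of_lt_of_le one_pos hc.h_ge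
    positivity
  have hκ1 : c.κ U1.card Y.card = κ * e := by
    have e2 : U1.card = U.card + (U1.card - U.card) := by
      have := card_le_card hU1
      omega
    rw [hκ, he]
    unfold Num.κ
    rw [div_mul_eq_mul_div]
    congr 1
    calc c.κ0 * c.h ^ U1.card
        = c.κ0 * c.h ^ (U.card + (U1.card - U.card)) := by rw [← e2]
      _ = _ := by
        rw [pow_add]
        ring
  rw [hκ1] at h1
  rw [← hκ] at h2 ⊢
  rw [← he] at hbig
  -- numbers
  have hcard1 : (C1.card : ℝ) ≤ C.card := by exact_mod_cast card_le_card hC1C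
  have hCpos : (0 : ℝ) < C.card := by
    by_contra hcon
    have h0 : (C.card : ℝ) = 0 := le_antisymm (not_lt.1 hcon) (Nat.cast_nonneg _)
    have h01 : (C1.card : ℝ) = 0 := le_antisymm (by rw [← h0]; exact hcard1) (Nat.cast_nonneg _)
    rw [h0, h01] at hbig
    simp at hbig
  have hsd : ((C \ C1).card : ℝ) = C.card - C1.card := by
    rw [card_sdiff_of_subset hC1C, Nat.cast_sub (card_le_card hC1C)]
  rw [hsd] at h2
  have hsub : P.Bad c F C Y ⊆ P.Bad c F C1 Y ∪ P.Bad c F (C \ C1) Y := by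
    intro x hx
    by_cases hx1 : x ∈ C1
    · exact mem_union_left _ (Bad_of_sub hx hC1C hx1)
    · exact mem_union_right _ (Bad_of_sub hx sdiff_subset (mem_sdiff.2 ⟨Bad_sub hx, hx1⟩))
  have hB : ((P.Bad c F C Y).card : ℝ) ≤ (P.Bad c F C1 Y).card + (P.Bad c F (C \ C1) Y).card := by
    exact_mod_cast (card_le_card hsub).trans (card_union_le _ _)
  have hs1 : ((P.Bad c F C1 Y).card : ℝ) ≤ Real.sqrt (κ * e * c.Tot L / W1 * C1.card) :=
    Real.le_sqrt_of_sq_le h1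
  have hs2 : ((P.Bad c F (C \ C1) Y).card : ℝ) ≤ Real.sqrt (κ * c.Tot L / W * (C.card - C1.card)) :=
    Real.le_sqrt_of_sq_le h2
  have hkey := sqrt_split C.card C1.card (κ * c.Tot L / W) (κ * e * c.Tot L / W1) hCpos
    (Nat.cast_nonneg _) hcard1 (by positivity) (by
      rw [mul_div_assoc', mul_div_assoc', div_le_div_iff₀ hW1 hW]
      calc 4 * (C.card : ℝ) * (κ * e * c.Tot L) * W = (κ * c.Tot L) * (4 * e * (C.card * W)) := by ring
        _ ≤ (κ * c.Tot L) * (C1.card * W1) := mul_le_mul_of_nonneg_left hbig.le (by positivity)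
        _ = _ := by ring)
  have hfin : ((P.Bad c F C Y).card : ℝ) ≤ Real.sqrt (κ * c.Tot L / W * C.card) := by linarith
  calc ((P.Bad c F C Y).card : ℝ) ^ 2 ≤ Real.sqrt (κ * c.Tot L / W * C.card) ^ 2 :=
        pow_le_pow_left₀ (Nat.cast_nonneg _) hfin 2
    _ = _ := Real.sq_sqrt (by positivity)

end Pool.Agent.H49.RL
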