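/-
The numbers of the final theorem (helper49). `R = 128 c`, `L = k / R + 1`, `n = N / (R L)`.
-/
import Mathlib

set_option autoImplicit false

namespace Pool.Agent.H49.RL

theorem nql (c z k N R L n : ℕ) (p : ℝ) (hc : 1 ≤ c) (hz : 1 ≤ z)
    (hk : 2 ^ 70 * c ^ 3 * z ≤ k) (hN : 2 ^ (2 ^ 20 * z * k ^ 2) ≤ N)
    (hp : (N : ℝ) ^ (-(c : ℝ) / k) ≤ p) (hR : R = 128 * c) (hL : L = k / R + 1)
    (hn : n = N / (R * L)) :
    n * (R * L) ≤ N ∧ k ≤ R * L ∧ 2 ^ 49 * R ^ 2 * z ≤ L ∧ 1 ≤ (n : ℝ) * p ^ (100 * L) ∧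
      N ≤ n * 2 ^ (2 * L) ∧ N ≤ n ^ 2 ∧ 2 ^ (L ^ 2) ≤ n ∧ ∃ a : ℝ,
      2 ^ (100 * (z * L ^ 2)) ≤ a ∧ a ^ (204800 * R) = n := by
  have hcz : c * z ≤ c ^ 3 * z := Nat.mul_le_mul_right _ (Nat.le_self_pow (by norm_num) c)
  have hcz1 : 1 ≤ c * z := Nat.mul_pos hc hz
  have hkcz : 2 ^ 70 * (c * z) ≤ k := by
    refine le_trans ?_ hk
    rw [mul_assoc]
    exact Nat.mul_le_mul_left _ hcz
  have hkc : 2 ^ 70 * c ≤ k := by
    refine le_trans ?_ hkcz
    exact Nat.mul_le_mul_left _ (Nat.le_mul_of_pos_right c hz)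
  have hk70 : 2 ^ 70 ≤ k := le_trans (Nat.le_mul_of_pos_right _ hc) hkc
  have hRpos : 0 < R := by omega
  have hRk : R ≤ k := by omega
  have hRL1 : k < R * L := by
    rw [hL]
    exact Nat.lt_mul_div_succ k hRpos
  have hRL2 : R * L ≤ k + R := by
    rw [hL, mul_add, mul_one]
    exact Nat.add_le_add_right (Nat.mul_div_le k R) R
  have hRL3 : R * L ≤ 2 * k := by omega
  have hLpos : 1 ≤ L := by rw [hL]; exact Nat.le_add_left 1 _
  have hRLpos : 0 < R * L := Nat.mul_pos hRpos hLpos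
  have c3 : 2 ^ 49 * R ^ 2 * z ≤ L := by
    rw [hL]
    refine le_trans ?_ (Nat.le_succ _)
    rw [Nat.le_div_iff_mul_le hRpos]
    refine le_trans (le_of_eq ?_) hk
    rw [hR]; ring
  have hRL : 2 ^ 49 * R ≤ L := by
    refine le_trans ?_ c3
    calc 2 ^ 49 * R ≤ 2 ^ 49 * R ^ 2 := Nat.mul_le_mul_left _ (Nat.le_self_pow (by norm_num) R)
      _ ≤ 2 ^ 49 * R ^ 2 * z := Nat.le_mul_of_pos_right _ hz
  have hzk : k ≤ z * k ^ 2 := by
    calc k ≤ k * k := Nat.le_mul_of_pos_left _ (by omega)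
      _ = 1 * k ^ 2 := by ring
      _ ≤ z * k ^ 2 := Nat.mul_le_mul_right _ hz
  -- `4 k 2 ^ (640000 z k²) ≤ N`
  have hbig : 4 * k * 2 ^ (640000 * (z * k ^ 2)) ≤ N := by
    refine le_trans ?_ hN
    have h1 : k ≤ 2 ^ k := Nat.lt_two_pow_self.le
    calc 4 * k * 2 ^ (640000 * (z * k ^ 2)) ≤ 4 * 2 ^ k * 2 ^ (640000 * (z * k ^ 2)) := by gcongr
      _ = 2 ^ (2 + k + 640000 * (z * k ^ 2)) := by
        rw [pow_add, pow_add]
        norm_num
      _ ≤ 2 ^ (2 ^ 20 * z * k ^ 2) := by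
        apply Nat.pow_le_pow_right (by norm_num)
        have : 2 ^ 20 * z * k ^ 2 = 2 ^ 20 * (z * k ^ 2) := by ring
        omega
  have hN4k : 4 * k ≤ N := le_trans (Nat.le_mul_of_pos_right _ (by positivity)) hbig
  have hnpos : 1 ≤ n := by
    rw [hn, Nat.one_le_div_iff hRLpos]
    omega
  have hNn : N ≤ 2 * n * (R * L) := by
    have h1 : N < (R * L) * (N / (R * L) + 1) := Nat.lt_mul_div_succ N hRLpos
    rw [← hn] at h1
    nlinarith
  have hN4 : N ≤ 4 * k * n := by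
    refine hNn.trans ?_
    nlinarith
  have hn2 : 2 ^ (640000 * (z * k ^ 2)) ≤ n := by
    have h1 : 4 * k * 2 ^ (640000 * (z * k ^ 2)) ≤ 4 * k * n := hbig.trans hN4
    exact Nat.le_of_mul_le_mul_left h1 (by omega)
  have hLk : L ≤ k := by
    have : 2 * L ≤ R * L := Nat.mul_le_mul_right _ (by omega)
    omega
  have c7 : 2 ^ (L ^ 2) ≤ n := by
    refine le_trans (Nat.pow_le_pow_right (by norm_num) ?_) hn2
    calc L ^ 2 ≤ k ^ 2 := Nat.pow_le_pow_left hLk 2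
      _ ≤ z * k ^ 2 := Nat.le_mul_of_pos_left _ hz
      _ ≤ 640000 * (z * k ^ 2) := Nat.le_mul_of_pos_left _ (by norm_num)
  have h4kn : 4 * k ≤ n := by
    refine le_trans ?_ hn2
    have h1 : k ≤ 2 ^ k := Nat.lt_two_pow_self.le
    calc 4 * k ≤ 4 * 2 ^ k := Nat.mul_le_mul_left _ h1
      _ = 2 ^ (2 + k) := by
        rw [pow_add]
        norm_num
      _ ≤ _ := Nat.pow_le_pow_right (by norm_num) (by omega)
  have c6 : N ≤ n ^ 2 := by
    refine hN4.trans ?_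
    rw [pow_two]
    exact Nat.mul_le_mul_right _ h4kn
  have c5 : N ≤ n * 2 ^ (2 * L) := by
    refine hNn.trans ?_
    have h1 : L ≤ 2 ^ L := Nat.lt_two_pow_self.le
    calc 2 * n * (R * L) = n * (2 * R * L) := by ring
      _ ≤ n * (L * L) := Nat.mul_le_mul_left _ (Nat.mul_le_mul_right _ (by omega))
      _ ≤ n * (2 ^ L * 2 ^ L) := Nat.mul_le_mul_left _ (Nat.mul_le_mul h1 h1)
      _ = n * 2 ^ (2 * L) := by rw [← pow_add]; congr 2; ring
  have hNR : (1 : ℝ) ≤ N := by exact_mod_cast (by omega : 1 ≤ N)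
  have hNR0 : (0 : ℝ) < N := by linarith
  have hkR : (2 : ℝ) ^ 70 ≤ k := by exact_mod_cast hk70
  have hkR0 : (0 : ℝ) < k := lt_of_lt_of_le (by norm_num) hkR
  refine ⟨?_, hRL1.le, c3, ?_, c5, c6, c7, ?_⟩
  · rw [hn]; exact Nat.div_mul_le_self N (R * L)
  · -- 1 ≤ n p^(100 L)
    have hp0 : 0 < (N : ℝ) ^ (-(c : ℝ) / k) := Real.rpow_pos_of_pos hNR0 _
    have h1 : ((N : ℝ) ^ (-(c : ℝ) / k)) ^ (100 * L) ≤ p ^ (100 * L) :=
      pow_le_pow_left₀ hp0.le hp _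
    have h2 : (N : ℝ) ^ (-(4 / 5 : ℝ)) ≤ ((N : ℝ) ^ (-(c : ℝ) / k)) ^ (100 * L) := by
      rw [← Real.rpow_natCast, ← Real.rpow_mul hNR0.le]
      apply Real.rpow_le_rpow_of_exponent_le hNR
      have h3 : (500 : ℝ) * (c * L) ≤ 4 * k := by
        have h4 : 128 * (c * L) ≤ k + 128 * c := by
          calc 128 * (c * L) = R * L := by rw [hR]; ring
            _ ≤ k + R := hRL2
            _ = k + 128 * c := by rw [hR]
        have h5 : 500 * (c * L) ≤ 4 * k := by omega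
        exact_mod_cast h5
      push_cast
      rw [div_mul_eq_mul_div, le_div_iff₀ hkR0]
      nlinarith
    have hnN : (N : ℝ) ^ (4 / 5 : ℝ) ≤ n := by
      have h3 : (4 * (k : ℝ)) ≤ (N : ℝ) ^ (1 / 5 : ℝ) := by
        have h4 : (4 * (k : ℝ)) ^ 5 ≤ N := by
          have h5 : (4 * k) ^ 5 ≤ N := by
            refine le_trans ?_ hbig
            have h6 : (4 * k) ^ 4 ≤ 2 ^ (640000 * (z * k ^ 2)) := by
              have h7 : 4 * k ≤ 2 ^ (2 + k) := by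
                have h1 : k ≤ 2 ^ k := Nat.lt_two_pow_self.le
                rw [pow_add]
                omega
              calc (4 * k) ^ 4 ≤ (2 ^ (2 + k)) ^ 4 := Nat.pow_le_pow_left h7 4
                _ = 2 ^ ((2 + k) * 4) := by rw [← pow_mul]
                _ ≤ _ := Nat.pow_le_pow_right (by norm_num) (by omega)
            calc (4 * k) ^ 5 = 4 * k * (4 * k) ^ 4 := by ring
              _ ≤ _ := Nat.mul_le_mul_left _ h6
          exact_mod_cast h5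
        have h6 : 4 * (k : ℝ) = ((4 * (k : ℝ)) ^ 5) ^ (1 / 5 : ℝ) := by
          rw [← Real.rpow_natCast, ← Real.rpow_mul (by positivity)]
          norm_num
        rw [h6]
        exact Real.rpow_le_rpow (by positivity) h4 (by norm_num)
      have h4 : (N : ℝ) ≤ 4 * k * n := by exact_mod_cast hN4
      have h5 : (N : ℝ) = (N : ℝ) ^ (1 / 5 : ℝ) * (N : ℝ) ^ (4 / 5 : ℝ) := by
        rw [← Real.rpow_add hNR0]
        norm_num
      have h6 : 0 < (N : ℝ) ^ (1 / 5 : ℝ) := Real.rpow_pos_of_pos hNR0 _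
      have h7 : (N : ℝ) ^ (1 / 5 : ℝ) * (N : ℝ) ^ (4 / 5 : ℝ) ≤ (N : ℝ) ^ (1 / 5 : ℝ) * n := by
        rw [← h5]
        exact h4.trans (mul_le_mul_of_nonneg_right h3 (Nat.cast_nonneg n))
      exact le_of_mul_le_mul_left h7 h6
    have h3 : (1 : ℝ) = (N : ℝ) ^ (4 / 5 : ℝ) * (N : ℝ) ^ (-(4 / 5 : ℝ)) := by
      rw [← Real.rpow_add hNR0]
      norm_num
    rw [h3]
    exact mul_le_mul hnN (h2.trans h1) (Real.rpow_nonneg hNR0.le _) (Nat.cast_nonneg n)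
  · -- the number a
    have hE : 204800 * R ≠ 0 := by omega
    have hn0 : (0 : ℝ) ≤ n := Nat.cast_nonneg n
    refine ⟨(n : ℝ) ^ (((204800 * R : ℕ) : ℝ)⁻¹), ?_, Real.rpow_inv_natCast_pow hn0 hE⟩
    refine le_of_pow_le_pow_left₀ hE (Real.rpow_nonneg hn0 _) ?_
    rw [Real.rpow_inv_natCast_pow hn0 hE, ← pow_mul]
    have h1 : (2 : ℝ) ^ (640000 * (z * k ^ 2)) ≤ n := by exact_mod_cast hn2
    refine le_trans (pow_le_pow_right₀ (by norm_num) ?_) h1
    have h2 : 128 * (R * (z * L ^ 2)) ≤ 4 * (z * k ^ 2) := by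
      calc 128 * (R * (z * L ^ 2)) ≤ R * (R * (z * L ^ 2)) := Nat.mul_le_mul_right _ (by omega)
        _ = z * (R * L) ^ 2 := by ring
        _ ≤ z * (2 * k) ^ 2 := Nat.mul_le_mul_left _ (Nat.pow_le_pow_left hRL3 2)
        _ = _ := by ring
    calc 100 * (z * L ^ 2) * (204800 * R) = 160000 * (128 * (R * (z * L ^ 2))) := by ring
      _ ≤ 160000 * (4 * (z * k ^ 2)) := Nat.mul_le_mul_left _ h2
      _ = _ := by ring

end Pool.Agent.H49.RL
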