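/-
The final theorem (helper49). Uses noref, rnd_ok3, numl_ok, nql, ref_of, cutting_group,
resolution_cutting, pr_clique.
-/
import Pool.Agent.H49.RL.Dsc
import Pool.Agent.H49.RL.Nm
import Pool.Agent.H49.RL.Nq
import Pool.Agent.H49.RL.Rf
import Pool.Agent.H49.RL.Rx3
import Pool.Agent.H49.RG.Cp
import Pool.Agent.H35.CL.Uny
import Pool.Agent.H9.KR.CF

set_option autoImplicit false
set_option linter.unusedSectionVars false

open Finset

namespace Pool.Agent.H49.RL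

open Pool.Agent.H35.CL Pool.Agent.H9.KR
open Pool.Agent.H49.RG (Vb GroupRefutation cutting_group)

theorem Ref.mono {ν : Type} {G : SimpleGraph ν} {R L : ℕ}
    {V : Fin R → Fin L → Finset ν} {r r' S : ℕ} {F : ℕ → Fin R → (Fin L → ν) → ℝ} {t : ℕ → ℝ}
    (h : Ref G V r S F t) (hr : r ≤ r') : Ref G V r' S F t where
  step := fun s hs => by
    obtain ⟨prem, h1, h2⟩ := h.step s hs
    exact ⟨prem, h1.trans hr, h2⟩
  last := h.last

theorem group_pr (c z k N : ℕ) (p : unitInterval) (hc : 1 ≤ c) (hz : 1 ≤ z)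
    (hk : 2 ^ 70 * c ^ 3 * z ≤ k) (hN : 2 ^ (2 ^ 20 * z * k ^ 2) ≤ N)
    (hp : (N : ℝ) ^ (-(c : ℝ) / k) ≤ p) :
    (SimpleGraph.binomialRandom (Fin N) p).real
      {G | ∃ S q : ℕ, S ≤ N ^ z ∧ 128 * c * q ≤ k ∧
        ∃ f, GroupRefutation (k := k) G (128 * c) q S f} ≤ 1 / N := by
  obtain ⟨h1, h2, h3, h4, h5, h6, h7, a, ha, han⟩ :=
    nql c z k N (128 * c) (k / (128 * c) + 1) (N / (128 * c * (k / (128 * c) + 1))) p hc hz hk hN
      hp rfl rfl rfl
  set R : ℕ := 128 * c with hR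
  set L : ℕ := k / R + 1 with hL
  set n : ℕ := N / (R * L) with hn
  have hR1 : 1 ≤ R := by omega
  have hN0 : 0 < N := lt_of_lt_of_le (by positivity) hN
  have hp0 : (0 : ℝ) < p := lt_of_lt_of_le (by positivity) hp
  have hOK := numl_ok a R L z n N (k / R) p hR1 hz h3 (by omega) hp0 p.2.2 h4 h5 ha han
  have hS := numl_S a R L z n N (k / R) p hR1 hz h3 h5 ha han
  have hpr := rnd_ok3 (R := R) (L := L) (N := N) (numl a R L z n N (k / R) p) hOK p rfl h1 rfl rfl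
    h4 ?_ ?_ h6 h7
  · refine le_trans ?_ hpr
    refine MeasureTheory.measureReal_mono ?_
    rintro G ⟨S, r, hSN, hr, f, hf⟩ hG
    obtain ⟨F, t, hT⟩ := ref_of (L := L) hR1 h2 G
      (fun (a' : Fin R) (j : Fin L) => Vb R (numl a R L z n N (k / R) p).n N a' j) hf
    have hrk : r ≤ k / R := (Nat.le_div_iff_mul_le (by omega)).2 (by rw [mul_comm]; exact hr)
    refine noref hG hOK S ?_ F t (hT.mono hrk)
    refine le_trans ?_ hS
    have hκ := hOK.κ0_pos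
    have hSR : (S : ℝ) ≤ (N : ℝ) ^ z := by exact_mod_cast hSN
    gcongr
  · show (n : ℝ) ^ 5 ≤ (a ^ (128000 * R)) ^ 8
    rw [← han]
    refine le_of_eq ?_
    ring
  · show Real.sqrt n ≤ ((Nat.sqrt n + 1 : ℕ) : ℝ)
    rw [Real.sqrt_le_left (by positivity)]
    have := Nat.lt_succ_sqrt n
    have h8 : n ≤ (Nat.sqrt n + 1) ^ 2 := by
      rw [pow_two]
      exact this.le
    exact_mod_cast h8

theorem main (c z k N : ℕ) (p : unitInterval) (hc : 1 ≤ c) (hz : 1 ≤ z)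
    (hk : 2 ^ 70 * c ^ 3 * z ≤ k) (hN : 2 ^ (2 ^ 20 * z * k ^ 2) ≤ N)
    (hp : (N : ℝ) ^ (-(c : ℝ) / k) ≤ p) :
    (SimpleGraph.binomialRandom (Fin N) p).real {G | ∃ S : ℕ, S ≤ N ^ z ∧
      ((∃ C, ResolutionOf (KClique G k) S C) ∨ ∃ q, 128 * c * q ≤ k ∧
        ((∃ a b, CuttingPlanesOf (KClique G k) q S a b) ∨
          ∃ f, GroupRefutation (k := k) G (128 * c) q S f))} ≤ 1 / N ∧
    ((p : ℝ) ≤ (N : ℝ) ^ (-(3 : ℝ) / k) →
      (SimpleGraph.binomialRandom (Fin N) p).real {G | ¬ G.CliqueFree k} ≤ 1 / N) := by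
  have hcz : 1 ≤ c ^ 3 * z := Nat.mul_pos (by positivity) (by positivity)
  have hk70 : 2 ^ 70 ≤ k := by
    calc 2 ^ 70 ≤ 2 ^ 70 * (c ^ 3 * z) := Nat.le_mul_of_pos_right _ hcz
      _ ≤ k := by rw [← mul_assoc]; exact hk
  have hc3 : c ≤ c ^ 3 * z := by
    calc c = c * 1 := (mul_one c).symm
      _ ≤ c ^ 3 * z := Nat.mul_le_mul (Nat.le_self_pow (by norm_num) c) hz
  have hck : 128 * c * 2 ≤ k := by
    calc 128 * c * 2 = 256 * c := by ring
      _ ≤ 2 ^ 70 * (c ^ 3 * z) := Nat.mul_le_mul (by norm_num) hc3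
      _ ≤ k := by rw [← mul_assoc]; exact hk
  have hN0 : 0 < N := lt_of_lt_of_le (by positivity) hN
  constructor
  · refine le_trans (MeasureTheory.measureReal_mono ?_) (group_pr c z k N p hc hz hk hN hp)
    rintro G ⟨S, hS, h | ⟨q, hq, h | ⟨f, hf⟩⟩⟩
    · obtain ⟨C, hC⟩ := h
      obtain ⟨a, b, hab⟩ := resolution_cutting hC
      obtain ⟨f, hf⟩ := cutting_group (R := 128 * c) (by omega) (by omega) G hab
      exact ⟨S, 2, hS, hck, f, hf⟩
    · obtain ⟨a, b, hab⟩ := h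
      obtain ⟨f, hf⟩ := cutting_group (R := 128 * c) (by omega) (by omega) G hab
      exact ⟨S, q, hS, hq, f, hf⟩
    · exact ⟨S, q, hS, hq, f, hf⟩
  · intro hp3
    rw [real_eq_pr p]
    refine (pr_clique (rsub_gnp (V := Fin N) p) k).trans ?_
    rw [Fintype.card_fin]
    have hNr : (1 : ℝ) ≤ N := by exact_mod_cast hN0
    have hN0' : (0 : ℝ) < N := by linarith
    have hk0 : (0 : ℝ) < k := by
      have : 0 < k := by omega
      exact_mod_cast this
    have h2 : ((N.choose k : ℕ) : ℝ) ≤ (N : ℝ) ^ (k : ℝ) := by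
      rw [Real.rpow_natCast]
      exact_mod_cast Nat.choose_le_pow N k
    have h3 : (p : ℝ) ^ (k.choose 2) ≤ (N : ℝ) ^ (-(3 * ((k : ℝ) - 1) / 2)) := by
      calc (p : ℝ) ^ (k.choose 2) ≤ ((N : ℝ) ^ (-(3 : ℝ) / k)) ^ (k.choose 2) :=
            pow_le_pow_left₀ p.2.1 hp3 _
        _ = (N : ℝ) ^ (-(3 * ((k : ℝ) - 1) / 2)) := by
            rw [← Real.rpow_natCast, ← Real.rpow_mul hN0'.le, Nat.cast_choose_two]
            congr 1
            field_simp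
    calc ((N.choose k : ℕ) : ℝ) * (p : ℝ) ^ (k.choose 2) ≤
          (N : ℝ) ^ (k : ℝ) * (N : ℝ) ^ (-(3 * ((k : ℝ) - 1) / 2)) :=
            mul_le_mul h2 h3 (pow_nonneg p.2.1 _) (by positivity)
      _ = (N : ℝ) ^ ((k : ℝ) + -(3 * ((k : ℝ) - 1) / 2)) := (Real.rpow_add hN0' _ _).symm
      _ ≤ (N : ℝ) ^ (-1 : ℝ) := by
          apply Real.rpow_le_rpow_of_exponent_le hNr
          have : (2 ^ 70 : ℝ) ≤ k := by exact_mod_cast hk70
          linarith
      _ = 1 / N := by rw [Real.rpow_neg_one, one_div]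

end Pool.Agent.H49.RL
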