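/-
The players are processed one after the other.
-/
import Pool.Agent.H49.RL.Typ

set_option autoImplicit false
set_option linter.unusedSectionVars false

open Finset

namespace Pool.Agent.H49.RL

open Pool.Agent.H49.RG (Cl Ad Eqn nbr cell pts mem_cell mem_nbr mem_pts cell_sub cell_mono
  cell_anti cell_cell cell_eq)

variable {ν : Type} [Fintype ν] [DecidableEq ν] {R L : ℕ}

/-- The active letters of player `b`. -/
def act (Q : Finset (Fin R)) (U U' : Fin R → Finset (Fin L)) (v xs : Fin R → Fin L → ν)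
    (b : Fin R) : Finset ν :=
  if b ∈ Q then lets (U' b) (xs b) else lets (U b) (v b)

/-- The players in `Q` are processed. -/
structure Stage (G : SimpleGraph ν) (V : Fin R → Fin L → Finset ν) (c : Num)
    (A : Fin R → Finset (Fin L → ν)) (Y' : Fin R → Finset (Fin L → ν))
    (F : Fin R → (Fin L → ν) → ℝ) (U : Fin R → Finset (Fin L)) (v : Fin R → Fin L → ν)
    (Q : Finset (Fin R)) (U' : Fin R → Finset (Fin L)) (xs : Fin R → Fin L → ν)
    (C : Fin R → Finset (Fin L → ν)) (Φ : Fin R → Finset ν) : Prop where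
  sub₁ : ∀ a ∉ Q, C a ⊆ A a
  sp₁ : ∀ a ∉ Q, (pl G V a).Sp c (C a) (U a) (v a) (Φ a)
    (c.ZS * 2 ^ c.r * 8 ^ Q.card) (c.GS * 2 ^ c.r * (8 * 8 ^ c.f) ^ Q.card)
  card₁ : ∀ a ∉ Q, (Φ a).card ≤ 2 * c.w + c.f * Q.card
  mem : ∀ a ∈ Q, xs a ∈ A a
  sub₂ : ∀ a ∈ Q, C a ⊆ Y' a
  below : ∀ a ∈ Q, ∀ x ∈ C a, F a x ≤ F a (xs a)
  U'_le : ∀ a ∈ Q, (U' a).card ≤ c.f
  sp₂ : ∀ a ∈ Q, (pl G V a).Sp c (C a) (U' a) (xs a) (Φ a)
    (c.Zg * 8 ^ Q.card) (c.Gg * (8 * 8 ^ c.f) ^ Q.card)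
  card₂ : ∀ a ∈ Q, (Φ a).card ≤ c.w + c.f * Q.card
  lets_sub : ∀ a, oth (act Q U U' v xs) a ⊆ Φ a

theorem Prc_one_le' (f : ℕ) : (1 : ℝ) ≤ 8 * 8 ^ f := by
  have h2 : (1 : ℝ) ≤ 8 ^ f := one_le_pow₀ (by norm_num)
  linarith

theorem Prc_ZS {c : Num} (hc : c.OK R L) : 0 ≤ c.ZS := by
  have h1 : (0 : ℝ) ≤ 2 * 8 ^ L := by positivity
  exact h1.trans hc.F12

theorem Prc_GS {c : Num} (hc : c.OK R L) : 1 ≤ c.GS := by
  have h1 : (1 : ℝ) ≤ 64 ^ L := one_le_pow₀ (by norm_num)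
  linarith [hc.F12']

theorem Prc_Gg {c : Num} (hc : c.OK R L) : 1 ≤ c.Gg := by
  have h1 : (1 : ℝ) ≤ 64 ^ c.w := one_le_pow₀ (by norm_num)
  linarith [hc.FGg]

theorem Prc_Zg {c : Num} (hc : c.OK R L) : 0 ≤ c.Zg := by
  have hβ : 0 ≤ c.β := le_trans (by norm_num) hc.β_ge
  have h1 : (0 : ℝ) ≤ 2 * c.β ^ (8 * c.w) * 8 ^ c.w := by positivity
  exact nonneg_of_mul_nonneg_right (h1.trans hc.FZg) hc.κ0_pos

theorem Prc_act_mem {Q : Finset (Fin R)} {U U' : Fin R → Finset (Fin L)} {v xs : Fin R → Fin L → ν}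
    {b : Fin R} (hb : b ∈ Q) : act Q U U' v xs b = lets (U' b) (xs b) := if_pos hb

theorem Prc_act_not {Q : Finset (Fin R)} {U U' : Fin R → Finset (Fin L)} {v xs : Fin R → Fin L → ν}
    {b : Fin R} (hb : b ∉ Q) : act Q U U' v xs b = lets (U b) (v b) := if_neg hb

/-- The current rows, letters and constants of player `b`. -/
theorem Prc_cur {G : SimpleGraph ν} {V : Fin R → Fin L → Finset ν} {c : Num}
    (hc : c.OK R L) {A Y' : Fin R → Finset (Fin L → ν)}
    {F : Fin R → (Fin L → ν) → ℝ} {U : Fin R → Finset (Fin L)} {v : Fin R → Fin L → ν}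
    (hU : ∀ a, (U a).card ≤ c.f)
    {Q : Finset (Fin R)} {U' : Fin R → Finset (Fin L)} {xs : Fin R → Fin L → ν}
    {C : Fin R → Finset (Fin L → ν)} {Φ : Fin R → Finset ν}
    (hS : Stage G V c A Y' F U v Q U' xs C Φ) (hQ : c.f * Q.card ≤ c.w) (b : Fin R) :
    ∃ (Uc : Finset (Fin L)) (αc : Fin L → ν) (Zc Kc : ℝ), (b ∈ Q → Uc = U' b ∧ αc = xs b ∧
        Zc = c.Zg * 8 ^ Q.card ∧ Kc = c.Gg * (8 * 8 ^ c.f) ^ Q.card) ∧
      (b ∉ Q → Uc = U b ∧ αc = v b ∧ Zc = c.ZS * 2 ^ c.r * 8 ^ Q.card ∧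
        Kc = c.GS * 2 ^ c.r * (8 * 8 ^ c.f) ^ Q.card) ∧
      act Q U U' v xs b = lets Uc αc ∧ Uc.card ≤ c.f ∧ 0 ≤ Zc ∧ Zc ≤ c.Z1 ∧ 1 ≤ Kc ∧
      Kc ≤ c.G1 ∧ (Φ b).card ≤ 3 * c.w ∧ (pl G V b).Sp c (C b) Uc αc (Φ b) Zc Kc := by
  have hQR : Q.card ≤ R := by
    have := card_le_univ Q
    rwa [Fintype.card_fin] at this
  have h1' : (1 : ℝ) ≤ 8 := by norm_num
  have e1 : (8 : ℝ) ^ Q.card ≤ 8 ^ R := pow_le_pow_right₀ h1' hQR
  have h2 := Prc_one_le' c.f
  have e2 : ((8 : ℝ) * 8 ^ c.f) ^ Q.card ≤ (8 * 8 ^ c.f) ^ R := pow_le_pow_right₀ h2 hQR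
  have hp1 : (1 : ℝ) ≤ 8 ^ Q.card := one_le_pow₀ h1'
  have hp2 : (1 : ℝ) ≤ (8 * 8 ^ c.f) ^ Q.card := one_le_pow₀ h2
  have hZS := Prc_ZS hc
  have hGS := Prc_GS hc
  have hZg := Prc_Zg hc
  have hGg := Prc_Gg hc
  have hGS0 : 0 ≤ c.GS := by linarith
  have hGg0 : 0 ≤ c.Gg := by linarith
  have h2r : (1 : ℝ) ≤ 2 ^ c.r := one_le_pow₀ (by norm_num)
  have e3 : c.ZS * 2 ^ c.r * 8 ^ Q.card ≤ c.Z1 :=
    (mul_le_mul_of_nonneg_left e1 (by positivity)).trans hc.F10
  have e4 : c.GS * 2 ^ c.r * (8 * 8 ^ c.f) ^ Q.card ≤ c.G1 :=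
    (mul_le_mul_of_nonneg_left e2 (by positivity)).trans hc.F10'
  have e5 : c.Zg * 8 ^ Q.card ≤ c.Z1 := by
    refine (mul_le_mul_of_nonneg_left e1 hZg).trans (hc.F9.trans ?_)
    have h3 : (1 : ℝ) ≤ 2 ^ c.r * 8 ^ R :=
      one_le_mul_of_one_le_of_one_le h2r (one_le_pow₀ h1')
    calc c.ZS ≤ c.ZS * (2 ^ c.r * 8 ^ R) := le_mul_of_one_le_right hZS h3
      _ = c.ZS * 2 ^ c.r * 8 ^ R := by ring
      _ ≤ c.Z1 := hc.F10
  have e6 : c.Gg * (8 * 8 ^ c.f) ^ Q.card ≤ c.G1 := by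
    refine (mul_le_mul_of_nonneg_left e2 hGg0).trans (hc.F9'.trans ?_)
    have h3 : (1 : ℝ) ≤ 2 ^ c.r * (8 * 8 ^ c.f) ^ R :=
      one_le_mul_of_one_le_of_one_le h2r (one_le_pow₀ h2)
    calc c.GS ≤ c.GS * (2 ^ c.r * (8 * 8 ^ c.f) ^ R) := le_mul_of_one_le_right hGS0 h3
      _ = c.GS * 2 ^ c.r * (8 * 8 ^ c.f) ^ R := by ring
      _ ≤ c.G1 := hc.F10'
  by_cases hb : b ∈ Q
  · refine ⟨U' b, xs b, _, _, fun _ => ⟨rfl, rfl, rfl, rfl⟩, fun h => absurd hb h,
      Prc_act_mem hb, hS.U'_le b hb, by positivity, e5,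
      one_le_mul_of_one_le_of_one_le hGg hp2, e6, ?_, hS.sp₂ b hb⟩
    have := hS.card₂ b hb
    omega
  · refine ⟨U b, v b, _, _, fun h => absurd h hb, fun _ => ⟨rfl, rfl, rfl, rfl⟩,
      Prc_act_not hb, hU b, by positivity, e3,
      one_le_mul_of_one_le_of_one_le (one_le_mul_of_one_le_of_one_le hGS h2r) hp2, e4, ?_,
      hS.sp₁ b hb⟩
    have := hS.card₁ b hb
    omega

open Classical in
theorem Prc_pick {κ : Type} [DecidableEq κ] {R L : ℕ} (hR : 1 ≤ R) (C : Finset κ)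
    (hC : C.Nonempty) (I : Fin R → Finset (Fin L) → Prop) (B : Fin R → Finset (Fin L) → Finset κ)
    (hB : ∀ b M, I b M → 2 * 2 ^ L * (R : ℝ) * (B b M).card ≤ C.card) :
    ∃ x ∈ C, ∀ b M, I b M → x ∉ B b M := by
  by_contra hcon
  push Not at hcon
  have h1 : C ⊆ ((univ : Finset (Fin R × Finset (Fin L))).filter (fun z => I z.1 z.2)).biUnion
      (fun z => B z.1 z.2) := by
    intro x hx
    obtain ⟨b, M, hI, hx'⟩ := hcon x hx
    exact mem_biUnion.2 ⟨(b, M), mem_filter.2 ⟨mem_univ _, hI⟩, hx'⟩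
  have h2 : (C.card : ℝ) ≤ ∑ z ∈ (univ : Finset (Fin R × Finset (Fin L))).filter
      (fun z => I z.1 z.2), ((B z.1 z.2).card : ℝ) := by
    exact_mod_cast (card_le_card h1).trans card_biUnion_le
  have hR' : (1 : ℝ) ≤ R := by exact_mod_cast hR
  have hC' : (0 : ℝ) < C.card := by exact_mod_cast card_pos.2 hC
  have h3 : 2 * 2 ^ L * (R : ℝ) * C.card ≤ 2 ^ L * R * C.card := by
    calc 2 * 2 ^ L * (R : ℝ) * C.card ≤ 2 * 2 ^ L * (R : ℝ) *
          ∑ z ∈ (univ : Finset (Fin R × Finset (Fin L))).filter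
            (fun z => I z.1 z.2), ((B z.1 z.2).card : ℝ) :=
          mul_le_mul_of_nonneg_left h2 (by positivity)
      _ = ∑ z ∈ (univ : Finset (Fin R × Finset (Fin L))).filter
            (fun z => I z.1 z.2), 2 * 2 ^ L * (R : ℝ) * ((B z.1 z.2).card : ℝ) := by
          rw [mul_sum]
      _ ≤ ∑ z ∈ (univ : Finset (Fin R × Finset (Fin L))).filter
            (fun z => I z.1 z.2), (C.card : ℝ) :=
          sum_le_sum fun z hz => hB _ _ (mem_filter.1 hz).2
      _ ≤ ∑ z : Fin R × Finset (Fin L), (C.card : ℝ) :=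
          sum_le_sum_of_subset_of_nonneg (filter_subset _ _) fun _ _ _ => hC'.le
      _ = 2 ^ L * R * C.card := by
          rw [sum_const, card_univ, Fintype.card_prod, Fintype.card_fin, Fintype.card_finset,
            Fintype.card_fin, nsmul_eq_mul]
          push_cast
          ring
  have h4 : (0 : ℝ) < 2 ^ L * R * C.card := by positivity
  linarith

theorem stage_step {G : SimpleGraph ν} {V : Fin R → Fin L → Finset ν} {c : Num}
    (h : ∀ a, (pl G V a).OK c) (hc : c.OK R L) (A Y' : Fin R → Finset (Fin L → ν))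
    (F : Fin R → (Fin L → ν) → ℝ) (U : Fin R → Finset (Fin L)) (v : Fin R → Fin L → ν)
    (hU : ∀ a, (U a).card ≤ c.f)
    (hgood : ∀ a, ∀ x ∈ A a, ∀ y : Finset ν, y ⊆ (pl G V a).Out → y.card ≤ c.w →
      Ad G univ x y → (pl G V a).Good c (F a) (Y' a) x y)
    (Q : Finset (Fin R)) (U' : Fin R → Finset (Fin L)) (xs : Fin R → Fin L → ν)
    (C : Fin R → Finset (Fin L → ν)) (Φ : Fin R → Finset ν)
    (hS : Stage G V c A Y' F U v Q U' xs C Φ) (a : Fin R) (ha : a ∉ Q) :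
    ∃ (U'' : Fin R → Finset (Fin L)) (xs' : Fin R → Fin L → ν)
      (C' : Fin R → Finset (Fin L → ν)) (Φ' : Fin R → Finset ν),
      Stage G V c A Y' F U v (insert a Q) U'' xs' C' Φ' := by
  classical
  have hQR : Q.card < R := by
    have h1 := card_lt_univ_of_notMem ha
    rwa [Fintype.card_fin] at h1
  have hw : c.f * Q.card + c.f ≤ c.w := by
    rw [hc.w_eq]
    calc c.f * Q.card + c.f = (Q.card + 1) * c.f := by ring
      _ ≤ R * c.f := Nat.mul_le_mul_right _ hQR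
  have hwL := w_lt hc
  choose Uc αc Zc Kc hcur₁ hcur₂ hact hUc hZc0 hZc1 hKc1 hKc2 hΦc hSp using
    fun b => Prc_cur hc hU hS (by omega) b
  obtain ⟨hUa, hαa, -, -⟩ := hcur₂ a ha
  -- the letters of the other players
  have hactΦ : ∀ b b', b ≠ b' → lets (Uc b) (αc b) ⊆ Φ b' := by
    intro b b' hbb u hu
    apply hS.lets_sub b'
    rw [mem_oth]
    exact ⟨b, hbb, by rw [hact]; exact hu⟩
  have hadj : ∀ x ∈ C a, ∀ b, b ≠ a → ∀ j ∈ Uc b, ∀ i, G.Adj (αc b j) (x i) := by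
    intro x hx b hb j hj i
    have h1 : αc b j ∈ Φ a := hactΦ b a hb (mem_lets.2 ⟨j, hj, rfl⟩)
    have h2 := (mem_cell.1 ((hSp a).sub hx)).2.2
    exact (h2 i (mem_univ _) _ h1).symm
  obtain ⟨x, hx, hgx⟩ := Prc_pick hc.R_pos (C a) (Pl.Sp.nonempty hc (hSp a))
    (fun b M => b ≠ a ∧ M.card ≤ c.f)
    (fun b M => (C a).filter (fun x => ¬ ∃ X ⊆ C b, (pl G V b).Sp c X (Uc b) (αc b)
      (Φ b ∪ lets M x) (Zc b * 8) (Kc b * (8 * 8 ^ c.f)))) (by
      rintro b M ⟨hba, hM⟩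
      have hΦb := hΦc b
      refine typ h hc a b hba.symm (C a) (C b) (Uc a) (Uc b) (αc a) (αc b) (Φ a) (Φ b)
        (Zc b) (Kc b) (hZc0 b) (hZc1 b) (hKc1 b) (hKc2 b)
        ((hSp a).mono hc (hZc1 a) (hKc2 a)) (hSp b) (by omega) M hM ?_ ?_
      · intro j _ hj
        exact hactΦ a b hba.symm (mem_lets.2 ⟨j, hj, rfl⟩)
      · intro x hx j hj u hu
        obtain ⟨i, _, rfl⟩ := mem_lets.1 hu
        exact hadj x hx b hba j hj i)
  have hxpts := (mem_cell.1 ((hSp a).sub hx)).1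
  have hxV : ∀ j, x j ∈ V a j := (mem_pts.1 hxpts).1
  -- the good set
  obtain ⟨y, hy⟩ : ∃ y, y = oth (act Q U U' v xs) a := ⟨_, rfl⟩
  have hyΦ : y ⊆ Φ a := by
    rw [hy]
    exact hS.lets_sub a
  have hyc : y.card ≤ c.w := by
    have h1 := card_oth_le (act Q U U' v xs) a c.f (fun b => by
      rw [hact]
      exact (card_lets_le _ _).trans (hUc b))
    rw [← hy, ← hc.w_eq] at h1
    omega
  have hxy : Ad G univ x y := by
    intro j hj u hu
    exact (mem_cell.1 ((hSp a).sub hx)).2.2 j hj u (hyΦ hu)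
  obtain ⟨Ua', A', hA'Y, hA'F, hUa', hA'Sp⟩ :=
    hgood a x (hS.sub₁ a ha hx) y (hyΦ.trans (hSp a).out) hyc hxy
  obtain ⟨Λ, hΛ⟩ : ∃ Λ, Λ = lets Ua' x := ⟨_, rfl⟩
  have hΛc : Λ.card ≤ c.f := by
    rw [hΛ]
    exact (card_lets_le _ _).trans hUa'
  have hden : ∀ b, ∃ X ⊆ C b, b ≠ a → (pl G V b).Sp c X (Uc b) (αc b)
      (Φ b ∪ Λ) (Zc b * 8) (Kc b * (8 * 8 ^ c.f)) := by
    intro b
    by_cases hb : b = a
    · exact ⟨C b, Subset.refl _, fun h => absurd hb h⟩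
    have h1 := hgx b Ua' ⟨hb, hUa'⟩
    rw [mem_filter, not_and, not_not, ← hΛ] at h1
    obtain ⟨X, hX1, hX2⟩ := h1 hx
    exact ⟨X, hX1, fun _ => hX2⟩
  choose X hXC hXSp using hden
  have hcardQ : (insert a Q).card = Q.card + 1 := card_insert_of_notMem ha
  have hne : ∀ {b}, b ∈ Q → b ≠ a := fun hb hba => ha (hba ▸ hb)
  have hact' : ∀ b, b ≠ a → act (insert a Q) U (Function.update U' a Ua') v
      (Function.update xs a x) b = act Q U U' v xs b := by
    intro b hb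
    unfold act
    rw [Function.update_of_ne hb, Function.update_of_ne hb]
    by_cases hbQ : b ∈ Q
    · rw [if_pos hbQ, if_pos (mem_insert_of_mem hbQ)]
    · rw [if_neg hbQ, if_neg (by rw [mem_insert, not_or]; exact ⟨hb, hbQ⟩)]
  have hacta : act (insert a Q) U (Function.update U' a Ua') v
      (Function.update xs a x) a = Λ := by
    rw [Prc_act_mem (mem_insert_self _ _), Function.update_self, Function.update_self, hΛ]
  refine ⟨Function.update U' a Ua', Function.update xs a x,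
    fun b => if b = a then A' else X b,
    fun b => if b = a then y else Φ b ∪ Λ, ?_⟩
  constructor
  · -- sub₁
    intro b hb
    rw [mem_insert, not_or] at hb
    simp only [if_neg hb.1]
    exact (hXC b).trans (hS.sub₁ b hb.2)
  · -- sp₁
    intro b hb
    rw [mem_insert, not_or] at hb
    simp only [if_neg hb.1]
    obtain ⟨e1, e2, e3, e4⟩ := hcur₂ b hb.2
    have h1 := hXSp b hb.1
    rw [e1, e2, e3, e4] at h1
    rw [hcardQ, pow_succ, pow_succ]
    exact h1.mono hc (le_of_eq (by ring)) (le_of_eq (by ring))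
  · -- card₁
    intro b hb
    rw [mem_insert, not_or] at hb
    simp only [if_neg hb.1]
    have hc1 := hS.card₁ b hb.2
    have h1 := card_union_le (Φ b) Λ
    rw [hcardQ, Nat.mul_succ]
    omega
  · -- mem
    intro b hb
    rcases mem_insert.1 hb with rfl | hb
    · rw [Function.update_self]
      exact hS.sub₁ b ha hx
    · rw [Function.update_of_ne (hne hb)]
      exact hS.mem b hb
  · -- sub₂
    intro b hb
    rcases mem_insert.1 hb with rfl | hb
    · simp only [if_pos]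
      exact hA'Y
    · simp only [if_neg (hne hb)]
      exact (hXC b).trans (hS.sub₂ b hb)
  · -- below
    intro b hb
    rcases mem_insert.1 hb with rfl | hb
    · simp only [if_pos]
      rw [Function.update_self]
      exact hA'F
    · simp only [if_neg (hne hb)]
      rw [Function.update_of_ne (hne hb)]
      exact fun z hz => hS.below b hb z (hXC b hz)
  · -- U'_le
    intro b hb
    rcases mem_insert.1 hb with rfl | hb
    · rw [Function.update_self]
      exact hUa'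
    · rw [Function.update_of_ne (hne hb)]
      exact hS.U'_le b hb
  · -- sp₂
    intro b hb
    rcases mem_insert.1 hb with rfl | hb
    · simp only [if_pos]
      rw [Function.update_self, Function.update_self]
      refine Pl.Sp.mono hc hA'Sp ?_ ?_
      · exact le_mul_of_one_le_right (Prc_Zg hc) (one_le_pow₀ (by norm_num))
      · exact le_mul_of_one_le_right (zero_le_one.trans (Prc_Gg hc))
          (one_le_pow₀ (Prc_one_le' _))
    · simp only [if_neg (hne hb)]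
      rw [Function.update_of_ne (hne hb), Function.update_of_ne (hne hb)]
      obtain ⟨e1, e2, e3, e4⟩ := hcur₁ b hb
      have h1 := hXSp b (hne hb)
      rw [e1, e2, e3, e4] at h1
      rw [hcardQ, pow_succ, pow_succ]
      exact h1.mono hc (le_of_eq (by ring)) (le_of_eq (by ring))
  · -- card₂
    intro b hb
    rcases mem_insert.1 hb with rfl | hb
    · simp only [if_pos]
      omega
    · simp only [if_neg (hne hb)]
      have hc1 := hS.card₂ b hb
      have h1 := card_union_le (Φ b) Λ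
      rw [hcardQ, Nat.mul_succ]
      omega
  · -- lets_sub
    intro b u hu
    obtain ⟨b', hb', hu⟩ := mem_oth.1 hu
    by_cases hba : b = a
    · subst hba
      simp only [if_pos]
      rw [hact' b' hb'] at hu
      rw [hy]
      exact mem_oth.2 ⟨b', hb', hu⟩
    · simp only [if_neg hba]
      by_cases hb'a : b' = a
      · subst hb'a
        rw [hacta] at hu
        exact mem_union_right _ hu
      · rw [hact' b' hb'a] at hu
        exact mem_union_left _ (hS.lets_sub b (mem_oth.2 ⟨b', hb', hu⟩))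

theorem prc {G : SimpleGraph ν} {V : Fin R → Fin L → Finset ν} {c : Num}
    (h : ∀ a, (pl G V a).OK c) (hc : c.OK R L) (A Y' : Fin R → Finset (Fin L → ν))
    (F : Fin R → (Fin L → ν) → ℝ) (U : Fin R → Finset (Fin L)) (v : Fin R → Fin L → ν)
    (hU : ∀ a, (U a).card ≤ c.f)
    (hgood : ∀ a, ∀ x ∈ A a, ∀ y : Finset ν, y ⊆ (pl G V a).Out → y.card ≤ c.w →
      Ad G univ x y → (pl G V a).Good c (F a) (Y' a) x y)
    (U' : Fin R → Finset (Fin L)) (xs : Fin R → Fin L → ν)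
    (C : Fin R → Finset (Fin L → ν)) (Φ : Fin R → Finset ν)
    (hS : Stage G V c A Y' F U v ∅ U' xs C Φ) :
    ∃ (U'' : Fin R → Finset (Fin L)) (xs' : Fin R → Fin L → ν)
      (C' : Fin R → Finset (Fin L → ν)) (Φ' : Fin R → Finset ν),
      Stage G V c A Y' F U v univ U'' xs' C' Φ' := by
  have key : ∀ Q : Finset (Fin R), ∃ (U'' : Fin R → Finset (Fin L)) (xs' : Fin R → Fin L → ν)
      (C' : Fin R → Finset (Fin L → ν)) (Φ' : Fin R → Finset ν),
      Stage G V c A Y' F U v Q U'' xs' C' Φ' := by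
    intro Q
    induction Q using Finset.induction_on with
    | empty => exact ⟨U', xs, C, Φ, hS⟩
    | insert a Q ha ih =>
      obtain ⟨U1, xs1, C1, Φ1, h1⟩ := ih
      exact stage_step h hc A Y' F U v hU hgood Q U1 xs1 C1 Φ1 h1 a ha
  exact key univ

end Pool.Agent.H49.RL
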