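import Pool.Agent.H49.RL.Prc

set_option autoImplicit false
set_option linter.unusedSectionVars false

open Finset

namespace Pool.Agent.H49.RL

open Pool.Agent.H49.RG (Cl Ad Eqn nbr cell pts mem_cell mem_nbr mem_pts cell_sub cell_mono
  cell_anti cell_cell cell_eq)

variable {ν : Type} [Fintype ν] [DecidableEq ν] {R L : ℕ}

theorem pre_step {G : SimpleGraph ν} {V : Fin R → Fin L → Finset ν} {c : Num}
    (h : ∀ a, (pl G V a).OK c) (hc : c.OK R L) (Y Y' : Fin R → Finset (Fin L → ν))
    (F : Fin R → (Fin L → ν) → ℝ) (t : ℝ)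
    (hgood : ∀ a, ∀ x ∈ Y a, ∀ y : Finset ν, y ⊆ (pl G V a).Out → y.card ≤ c.w →
      Ad G univ x y → (pl G V a).Good c (F a) (Y' a) x y)
    (hS : St G V c Y F t (c.ZS * 2 ^ c.r) (c.GS * 2 ^ c.r)) : St G V c Y' F t c.ZS c.GS := by
  obtain ⟨A, U, v, Φ, hAY, hU, hΦc, hlets, hSp, hF⟩ := hS
  have hcardR : (univ : Finset (Fin R)).card = R := by rw [card_univ, Fintype.card_fin]
  have hfR : c.f * R = c.w := by rw [hc.w_eq, Nat.mul_comm]
  have hst : Stage G V c A Y' F U v ∅ U v A Φ := by
    constructor
    · intro a _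
      exact Subset.refl _
    · intro a _
      refine Pl.Sp.mono hc (hSp a) (le_of_eq ?_) (le_of_eq ?_)
      · rw [card_empty, pow_zero, mul_one]
      · rw [card_empty, pow_zero, mul_one]
    · intro a _
      rw [card_empty, Nat.mul_zero, Nat.add_zero]
      exact hΦc a
    · intro a ha
      exact absurd ha (notMem_empty _)
    · intro a ha
      exact absurd ha (notMem_empty _)
    · intro a ha
      exact absurd ha (notMem_empty _)
    · intro a ha
      exact absurd ha (notMem_empty _)
    · intro a ha
      exact absurd ha (notMem_empty _)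
    · intro a ha
      exact absurd ha (notMem_empty _)
    · intro a
      have h1 : act ∅ U U v v = fun b => lets (U b) (v b) := by
        funext b
        unfold act
        exact if_neg (notMem_empty _)
      rw [h1]
      exact hlets a
  obtain ⟨U'', xs', C', Φ', hS'⟩ := prc h hc A Y' F U v hU
    (fun a x hx => hgood a x (hAY a hx)) U v A Φ hst
  refine ⟨C', U'', xs', Φ', fun a => hS'.sub₂ a (mem_univ _), fun a => hS'.U'_le a (mem_univ _),
    ?_, ?_, ?_, ?_⟩
  · intro a
    have h1 := hS'.card₂ a (mem_univ _)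
    rw [hcardR, hfR] at h1
    omega
  · intro a
    have h1 := hS'.lets_sub a
    have h2 : act univ U U'' v xs' = fun b => lets (U'' b) (xs' b) := by
      funext b
      unfold act
      exact if_pos (mem_univ _)
    rwa [h2] at h1
  · intro a
    have h1 := hS'.sp₂ a (mem_univ _)
    rw [hcardR] at h1
    exact Pl.Sp.mono hc h1 hc.F9 hc.F9'
  · intro X hX
    exact lt_of_le_of_lt
      (Finset.sum_le_sum fun a _ => hS'.below a (mem_univ _) (X a) (hX a))
      (hF xs' fun a => hS'.mem a (mem_univ _))

end Pool.Agent.H49.RL
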